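import Mathlib
import Pool.Agent.H109R2.SICBase

set_option autoImplicit false

namespace Pool.Agent.H207.SR

open scoped InnerProductSpace ComplexConjugate
open Pool.Agent.H109R2.SIC

/-! ### Two linear algebra lemmas -/

theorem pot {F : Type*} [NormedAddCommGroup F] [InnerProductSpace ℂ F] [FiniteDimensional ℂ F]
    {ι : Type*} [Fintype ι] (y : ι → F) :
    (∑ i, ‖y i‖ ^ 2) ^ 2 ≤ (Module.finrank ℂ F : ℝ) * ∑ i, ∑ j, ‖⟪y i, y j⟫_ℂ‖ ^ 2 := by
  classical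
  let b := stdOrthonormalBasis ℂ F
  let A : Fin (Module.finrank ℂ F) → Fin (Module.finrank ℂ F) → ℂ :=
    fun k l => ∑ i, ⟪b k, y i⟫_ℂ * ⟪y i, b l⟫_ℂ
  have h1 : ∑ k, (A k k).re = ∑ i, ‖y i‖ ^ 2 := by
    simp only [A, Complex.re_sum]
    rw [Finset.sum_comm]
    refine Finset.sum_congr rfl fun i _ => ?_
    rw [← OrthonormalBasis.sum_sq_norm_inner_right b (y i)]
    refine Finset.sum_congr rfl fun k _ => ?_
    rw [← inner_conj_symm (y i) (b k), RCLike.mul_conj]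
    norm_cast
  have h2 : ∑ k, ∑ l, ‖A k l‖ ^ 2 = ∑ i, ∑ j, ‖⟪y i, y j⟫_ℂ‖ ^ 2 := by
    have h3 : ((∑ k, ∑ l, ‖A k l‖ ^ 2 : ℝ) : ℂ) = ((∑ i, ∑ j, ‖⟪y i, y j⟫_ℂ‖ ^ 2 : ℝ) : ℂ) := by
      push_cast
      have e1 : ∀ k l, ((‖A k l‖ : ℂ)) ^ 2 = ∑ i, ∑ j,
          (⟪y j, b k⟫_ℂ * ⟪b k, y i⟫_ℂ) * (⟪y i, b l⟫_ℂ * ⟪b l, y j⟫_ℂ) := by
        intro k l
        rw [← Complex.conj_mul', mul_comm]
        simp only [A, map_sum, map_mul, inner_conj_symm]
        rw [Finset.sum_mul_sum]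
        refine Finset.sum_congr rfl fun i _ => Finset.sum_congr rfl fun j _ => ?_
        ring
      have e2 : ∀ i j, ((‖⟪y i, y j⟫_ℂ‖ : ℂ)) ^ 2 = ⟪y j, y i⟫_ℂ * ⟪y i, y j⟫_ℂ := by
        intro i j
        rw [← Complex.conj_mul', inner_conj_symm]
      simp only [e1, e2]
      have e3 : ∀ i j, ⟪y j, y i⟫_ℂ * ⟪y i, y j⟫_ℂ = ∑ k, ∑ l,
          (⟪y j, b k⟫_ℂ * ⟪b k, y i⟫_ℂ) * (⟪y i, b l⟫_ℂ * ⟪b l, y j⟫_ℂ) := by
        intro i j
        rw [← OrthonormalBasis.sum_inner_mul_inner b (y j) (y i),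
          ← OrthonormalBasis.sum_inner_mul_inner b (y i) (y j), Finset.sum_mul_sum]
      simp only [e3]
      calc ∑ k, ∑ l, ∑ i, ∑ j, (⟪y j, b k⟫_ℂ * ⟪b k, y i⟫_ℂ) * (⟪y i, b l⟫_ℂ * ⟪b l, y j⟫_ℂ)
          = ∑ k, ∑ i, ∑ l, ∑ j, (⟪y j, b k⟫_ℂ * ⟪b k, y i⟫_ℂ) * (⟪y i, b l⟫_ℂ * ⟪b l, y j⟫_ℂ) :=
            Finset.sum_congr rfl fun k _ => Finset.sum_comm
        _ = ∑ i, ∑ k, ∑ l, ∑ j, (⟪y j, b k⟫_ℂ * ⟪b k, y i⟫_ℂ) * (⟪y i, b l⟫_ℂ * ⟪b l, y j⟫_ℂ) :=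
            Finset.sum_comm
        _ = ∑ i, ∑ k, ∑ j, ∑ l, (⟪y j, b k⟫_ℂ * ⟪b k, y i⟫_ℂ) * (⟪y i, b l⟫_ℂ * ⟪b l, y j⟫_ℂ) :=
            Finset.sum_congr rfl fun i _ => Finset.sum_congr rfl fun k _ => Finset.sum_comm
        _ = ∑ i, ∑ j, ∑ k, ∑ l, (⟪y j, b k⟫_ℂ * ⟪b k, y i⟫_ℂ) * (⟪y i, b l⟫_ℂ * ⟪b l, y j⟫_ℂ) :=
            Finset.sum_congr rfl fun i _ => Finset.sum_comm
    exact_mod_cast h3
  rw [← h1, ← h2]
  have h4 : (∑ k, (A k k).re) ^ 2 ≤ (Module.finrank ℂ F : ℝ) * ∑ k, (A k k).re ^ 2 := by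
    have h := sq_sum_le_card_mul_sum_sq (s := (Finset.univ : Finset (Fin (Module.finrank ℂ F))))
      (f := fun k => (A k k).re)
    simpa using h
  refine h4.trans ?_
  refine mul_le_mul_of_nonneg_left ?_ (Nat.cast_nonneg _)
  refine Finset.sum_le_sum fun k _ => ?_
  calc (A k k).re ^ 2 ≤ ‖A k k‖ ^ 2 := by
        rw [← sq_abs]
        exact pow_le_pow_left₀ (abs_nonneg _) (Complex.abs_re_le_norm _) 2
    _ ≤ ∑ l, ‖A k l‖ ^ 2 :=
        Finset.single_le_sum (f := fun l => ‖A k l‖ ^ 2) (fun l _ => by positivity)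
          (Finset.mem_univ k)

/-- A rank one combination `∑ w_j |y_j⟩⟨y_j|`, with all `w_j ≠ 0`, forces
`2 dim span y - 1 ≤ n`. -/
theorem rank_ineq {F : Type*} [NormedAddCommGroup F] [InnerProductSpace ℂ F]
    [FiniteDimensional ℂ F] {ι : Type*} [Fintype ι] (y : ι → F) (w : ι → ℂ) (hw : ∀ i, w i ≠ 0)
    (z : F) (h : ∀ v, ∑ i, (w i * ⟪y i, v⟫_ℂ) • y i = ⟪z, v⟫_ℂ • z) :
    2 * Module.finrank ℂ (Submodule.span ℂ (Set.range y)) ≤ Fintype.card ι + 1 := by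
  classical
  set U := Submodule.span ℂ (Set.range y) with hU
  let T : (ι → ℂ) →ₗ[ℂ] F := Fintype.linearCombination ℂ y
  have hTr : LinearMap.range T = U := Fintype.range_linearCombination ℂ y
  let Θ : U →ₗ[ℂ] (ι → ℂ) := LinearMap.pi fun i => (w i) • ((innerₛₗ ℂ (y i)) ∘ₗ U.subtype)
  have hΘ : ∀ (v : U) (i : ι), Θ v i = w i * ⟪y i, (v : F)⟫_ℂ := by
    intro v i; simp [Θ]
  have hTΘ : ∀ v : U, T (Θ v) = ⟪z, (v : F)⟫_ℂ • z := by
    intro v
    rw [← h, Fintype.linearCombination_apply]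
    simp only [hΘ]
  have hΘi : Function.Injective Θ := by
    rw [← LinearMap.ker_eq_bot, LinearMap.ker_eq_bot']
    intro v hv
    have h1 : ∀ i, ⟪y i, (v : F)⟫_ℂ = 0 := by
      intro i
      have := congrFun hv i
      rw [hΘ] at this
      exact (mul_eq_zero.mp this).resolve_left (hw i)
    have h2 : ∀ u ∈ U, ⟪u, (v : F)⟫_ℂ = 0 := by
      intro u hu
      induction hu using Submodule.span_induction with
      | mem u hu => obtain ⟨i, rfl⟩ := hu; exact h1 i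
      | zero => simp
      | add a b _ _ ha hb => rw [inner_add_left, ha, hb, add_zero]
      | smul c a _ ha => rw [inner_smul_left, ha, mul_zero]
    have h3 := h2 v v.2
    rw [inner_self_eq_zero] at h3
    exact Subtype.ext h3
  have e1 : Module.finrank ℂ U = Module.finrank ℂ (LinearMap.range (T ∘ₗ Θ))
      + Module.finrank ℂ (LinearMap.ker (T ∘ₗ Θ)) := (LinearMap.finrank_range_add_finrank_ker _).symm
  have e2 : Module.finrank ℂ (LinearMap.range (T ∘ₗ Θ)) ≤ 1 := by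
    have hle : LinearMap.range (T ∘ₗ Θ) ≤ Submodule.span ℂ {z} := by
      rintro _ ⟨v, rfl⟩
      rw [LinearMap.comp_apply, hTΘ]
      exact Submodule.smul_mem _ _ (Submodule.mem_span_singleton_self z)
    refine (Submodule.finrank_mono hle).trans ?_
    exact (finrank_span_le_card ({z} : Set F)).trans (by simp)
  have e3 : Module.finrank ℂ (LinearMap.ker (T ∘ₗ Θ)) ≤ Module.finrank ℂ (LinearMap.ker T) := by
    let f : LinearMap.ker (T ∘ₗ Θ) →ₗ[ℂ] LinearMap.ker T :=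
      LinearMap.codRestrict (LinearMap.ker T) (Θ.domRestrict (LinearMap.ker (T ∘ₗ Θ)))
        (fun v => by
          have := v.2
          rw [LinearMap.mem_ker, LinearMap.comp_apply] at this
          rw [LinearMap.mem_ker, LinearMap.domRestrict_apply]
          exact this)
    have hf : Function.Injective f := by
      intro a b hab
      have h1 := congrArg Subtype.val hab
      have h2 : Θ a.1 = Θ b.1 := h1
      exact Subtype.ext (hΘi h2)
    exact LinearMap.finrank_le_finrank_of_injective hf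
  have e4 : Module.finrank ℂ U + Module.finrank ℂ (LinearMap.ker T) = Fintype.card ι := by
    have := LinearMap.finrank_range_add_finrank_ker T
    rw [hTr] at this
    rw [this, Module.finrank_fintype_fun_eq_card]
  omega

end Pool.Agent.H207.SR
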