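import Mathlib
import Pool.Agent.H109R2.SICBase
import Pool.Agent.H207.SR.Basic

set_option autoImplicit false

namespace Pool.Agent.H207.SR

open scoped InnerProductSpace ComplexConjugate
open Pool.Agent.H109R2.SIC

variable {d : ℕ} {x : Fin (d ^ 2) → EuclideanSpace ℂ (Fin d)}

/-- The matrix `v u^*`. -/
noncomputable def rk (v u : EuclideanSpace ℂ (Fin d)) : Matrix (Fin d) (Fin d) ℂ :=
  Matrix.of fun a b => v a * star (u b)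

theorem trace_P_rk (i : Fin (d ^ 2)) (v u : EuclideanSpace ℂ (Fin d)) :
    Matrix.trace (P x i * rk v u) = ⟪x i, v⟫_ℂ * ⟪u, x i⟫_ℂ := by
  rw [trace_P_mul, inner_eq, inner_eq, Finset.sum_mul_sum]
  refine Finset.sum_congr rfl fun a _ => Finset.sum_congr rfl fun b _ => ?_
  simp only [rk, Matrix.of_apply]
  ring

theorem trace_rk (v u : EuclideanSpace ℂ (Fin d)) : Matrix.trace (rk v u) = ⟪u, v⟫_ℂ := by
  rw [inner_eq, Matrix.trace]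
  refine Finset.sum_congr rfl fun a _ => ?_
  simp only [rk, Matrix.diag_apply, Matrix.of_apply]
  ring

theorem trace_rk_rk (v u v' u' : EuclideanSpace ℂ (Fin d)) :
    Matrix.trace (rk v u * rk v' u') = ⟪u, v'⟫_ℂ * ⟪u', v⟫_ℂ := by
  rw [inner_eq, inner_eq, Finset.sum_mul_sum, Matrix.trace, Finset.sum_comm]
  refine Finset.sum_congr rfl fun a _ => ?_
  simp only [rk, Matrix.diag_apply, Matrix.mul_apply, Matrix.of_apply]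
  refine Finset.sum_congr rfl fun b _ => ?_
  ring

/-- the two-design identity for vectors. -/
theorem des (hx : IsMaxETF d x) (u v u' v' : EuclideanSpace ℂ (Fin d)) :
    ∑ i, (⟪x i, v⟫_ℂ * ⟪u, x i⟫_ℂ) * (⟪x i, v'⟫_ℂ * ⟪u', x i⟫_ℂ)
      = ((d : ℂ) / ((d : ℂ) + 1)) * (⟪u, v'⟫_ℂ * ⟪u', v⟫_ℂ + ⟪u, v⟫_ℂ * ⟪u', v'⟫_ℂ) := by
  have h := design2 hx (rk v u) (rk v' u')
  simp only [trace_P_rk, trace_rk, trace_rk_rk] at h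
  exact h

theorem frm (hx : IsMaxETF d x) (u v : EuclideanSpace ℂ (Fin d)) :
    ∑ i, ⟪x i, v⟫_ℂ * ⟪u, x i⟫_ℂ = (d : ℂ) * ⟪u, v⟫_ℂ := by
  have h := congrArg (fun M => Matrix.trace (M * rk v u)) (sum_P hx)
  simp only [Finset.sum_mul, Matrix.trace_sum, trace_P_rk, smul_mul_assoc, Matrix.one_mul,
    Matrix.trace_smul, trace_rk, smul_eq_mul] at h
  exact h

theorem nrm2 (a : ℂ) : ((‖a‖ ^ 2 : ℝ) : ℂ) = conj a * a := by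
  rw [Complex.conj_mul']; push_cast; rfl

theorem inner_nrm (u v : EuclideanSpace ℂ (Fin d)) :
    ⟪u, v⟫_ℂ * ⟪v, u⟫_ℂ = ((‖⟪u, v⟫_ℂ‖ ^ 2 : ℝ) : ℂ) := by
  rw [nrm2, inner_conj_symm, mul_comm]

theorem sum_p (hx : IsMaxETF d x) (v : EuclideanSpace ℂ (Fin d)) :
    ∑ i, ‖⟪x i, v⟫_ℂ‖ ^ 2 = (d : ℝ) * ‖v‖ ^ 2 := by
  have h := frm hx v v
  simp only [inner_nrm] at h
  have h2 : ⟪v, v⟫_ℂ = ((‖v‖ ^ 2 : ℝ) : ℂ) := by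
    rw [inner_self_eq_norm_sq_to_K]; push_cast; rfl
  rw [h2] at h
  exact_mod_cast h

theorem sum_p4 (hx : IsMaxETF d x) (v : EuclideanSpace ℂ (Fin d)) :
    ∑ i, ‖⟪x i, v⟫_ℂ‖ ^ 4 = 2 * (d : ℝ) / (d + 1) * ‖v‖ ^ 4 := by
  have h := des hx v v v v
  simp only [inner_nrm] at h
  have h2 : ‖⟪v, v⟫_ℂ‖ = ‖v‖ ^ 2 := by
    rw [inner_self_eq_norm_sq_to_K]; simp
  rw [h2] at h
  have h3 : ((∑ i, ‖⟪x i, v⟫_ℂ‖ ^ 4 : ℝ) : ℂ) = ((2 * (d : ℝ) / (d + 1) * ‖v‖ ^ 4 : ℝ) : ℂ) := by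
    push_cast
    push_cast at h
    rw [show (2 * (d : ℂ) / (d + 1) * (‖v‖ : ℂ) ^ 4) = (d : ℂ) / (d + 1) * (((‖v‖ : ℂ) ^ 2) ^ 2 +
      ((‖v‖ : ℂ) ^ 2) ^ 2) by ring, ← h]
    refine Finset.sum_congr rfl fun i _ => ?_
    ring
  exact_mod_cast h3

/-- the coefficient of `z` at the line `i`. -/
noncomputable def wt (x : Fin (d ^ 2) → EuclideanSpace ℂ (Fin d)) (z : EuclideanSpace ℂ (Fin d))
    (i : Fin (d ^ 2)) : ℝ := (((d : ℝ) + 1) * ‖⟪x i, z⟫_ℂ‖ ^ 2 - 1) / d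

theorem expand (hd : 0 < d) (hx : IsMaxETF d x) {z : EuclideanSpace ℂ (Fin d)} (hz : ‖z‖ = 1)
    (u v : EuclideanSpace ℂ (Fin d)) :
    ∑ i, (wt x z i : ℂ) * (⟪x i, v⟫_ℂ * ⟪u, x i⟫_ℂ) = ⟪z, v⟫_ℂ * ⟪u, z⟫_ℂ := by
  have h := des hx u v z z
  have h2 := frm hx u v
  simp only [inner_nrm] at h
  have hd0 : (d : ℂ) ≠ 0 := by exact_mod_cast hd.ne'
  have hd1 : (d : ℂ) + 1 ≠ 0 := d1_ne
  have e : ∀ i, (wt x z i : ℂ) * (⟪x i, v⟫_ℂ * ⟪u, x i⟫_ℂ)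
      = (((d : ℂ) + 1) / d) * ((⟪x i, v⟫_ℂ * ⟪u, x i⟫_ℂ) * ((‖⟪x i, z⟫_ℂ‖ ^ 2 : ℝ) : ℂ))
        - (1 / d) * (⟪x i, v⟫_ℂ * ⟪u, x i⟫_ℂ) := by
    intro i
    simp only [wt]
    push_cast
    field_simp
  have e2 : ∀ i, ⟪x i, z⟫_ℂ * ⟪z, x i⟫_ℂ = ((‖⟪x i, z⟫_ℂ‖ ^ 2 : ℝ) : ℂ) := fun i => inner_nrm _ _
  simp only [e, Finset.sum_sub_distrib, ← Finset.mul_sum]
  rw [h, h2]
  have h3 : ⟪z, z⟫_ℂ = 1 := by rw [inner_self_eq_norm_sq_to_K, hz]; simp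
  rw [h3]
  field_simp
  ring

theorem sum_wt (hd : 0 < d) (hx : IsMaxETF d x) {z : EuclideanSpace ℂ (Fin d)} (hz : ‖z‖ = 1) :
    ∑ i, wt x z i = 1 := by
  have h := sum_p hx z
  have hd0 : (d : ℝ) ≠ 0 := by exact_mod_cast hd.ne'
  simp only [wt, ← Finset.sum_div, Finset.sum_sub_distrib, ← Finset.mul_sum, h, hz]
  simp
  field_simp
  ring

theorem sum_wt_sq (hd : 0 < d) (hx : IsMaxETF d x) {z : EuclideanSpace ℂ (Fin d)} (hz : ‖z‖ = 1) :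
    ∑ i, wt x z i ^ 2 = 1 := by
  have h := sum_p hx z
  have h4 := sum_p4 hx z
  have hd0 : (d : ℝ) ≠ 0 := by exact_mod_cast hd.ne'
  have hd1 : (d : ℝ) + 1 ≠ 0 := by positivity
  have e : ∀ i, wt x z i ^ 2 = (((d : ℝ) + 1) ^ 2 * ‖⟪x i, z⟫_ℂ‖ ^ 4
      - 2 * ((d : ℝ) + 1) * ‖⟪x i, z⟫_ℂ‖ ^ 2 + 1) / d ^ 2 := by
    intro i
    simp only [wt]
    field_simp
    ring
  simp only [e, ← Finset.sum_div, Finset.sum_add_distrib, Finset.sum_sub_distrib, ← Finset.mul_sum,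
    h, h4, hz]
  simp
  field_simp
  ring

end Pool.Agent.H207.SR
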