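import Mathlib
import Pool.Agent.H207.SR.Etf

set_option autoImplicit false

namespace Pool.Agent.H207.SR

open scoped InnerProductSpace ComplexConjugate
open Pool.Agent.H109R2.SIC

variable {d : ℕ} {x : Fin (d ^ 2) → EuclideanSpace ℂ (Fin d)}

theorem inner_self_one {v : EuclideanSpace ℂ (Fin d)} (hv : ‖v‖ = 1) : ⟪v, v⟫_ℂ = 1 := by
  rw [inner_self_eq_norm_sq_to_K, hv]; simp

/-- the component of `u` orthogonal to `z`. -/
noncomputable def prp (z u : EuclideanSpace ℂ (Fin d)) : EuclideanSpace ℂ (Fin d) :=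
  u - ⟪z, u⟫_ℂ • z

theorem inner_prp {z : EuclideanSpace ℂ (Fin d)} (hz : ‖z‖ = 1) (u : EuclideanSpace ℂ (Fin d)) :
    ⟪z, prp z u⟫_ℂ = 0 := by
  rw [prp, inner_sub_right, inner_smul_right, inner_self_one hz, mul_one, sub_self]

theorem inner_prp_right (z u v : EuclideanSpace ℂ (Fin d)) :
    ⟪v, prp z u⟫_ℂ = ⟪v, u⟫_ℂ - ⟪z, u⟫_ℂ * ⟪v, z⟫_ℂ := by
  rw [prp, inner_sub_right, inner_smul_right]

theorem inner_self_prp {z u : EuclideanSpace ℂ (Fin d)} (hu : ‖u‖ = 1) :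
    ⟪u, prp z u⟫_ℂ = ((1 - ‖⟪u, z⟫_ℂ‖ ^ 2 : ℝ) : ℂ) := by
  rw [inner_prp_right, inner_self_one hu, mul_comm, inner_nrm]
  push_cast; rfl

theorem norm_prp {z u : EuclideanSpace ℂ (Fin d)} (hz : ‖z‖ = 1) (hu : ‖u‖ = 1) :
    ‖prp z u‖ ^ 2 = 1 - ‖⟪u, z⟫_ℂ‖ ^ 2 := by
  have h : ⟪prp z u, prp z u⟫_ℂ = ((1 - ‖⟪u, z⟫_ℂ‖ ^ 2 : ℝ) : ℂ) := by
    conv_lhs => rw [show prp z u = u - ⟪z, u⟫_ℂ • z from rfl]
    rw [inner_sub_left, inner_smul_left]
    change ⟪u, prp z u⟫_ℂ - _ * ⟪z, prp z u⟫_ℂ = _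
    rw [inner_prp hz, mul_zero, sub_zero, inner_self_prp hu]
  rw [inner_self_eq_norm_sq_to_K] at h
  have h' : (((‖prp z u‖ ^ 2 : ℝ)) : ℂ) = ((1 - ‖⟪u, z⟫_ℂ‖ ^ 2 : ℝ) : ℂ) := by
    rw [← h]; push_cast; rfl
  exact Complex.ofReal_injective h'

theorem lt_one_of_foreign {z u : EuclideanSpace ℂ (Fin d)} (hz : ‖z‖ = 1) (hu : ‖u‖ = 1)
    (h : ∀ c : ℂ, z ≠ c • u) : ‖⟪u, z⟫_ℂ‖ ^ 2 < 1 := by
  by_contra hcon
  push Not at hcon
  have h1 := norm_prp hu hz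
  have h2 : ‖⟪z, u⟫_ℂ‖ = ‖⟪u, z⟫_ℂ‖ := norm_inner_symm z u
  rw [h2] at h1
  have h3 : ‖prp u z‖ ^ 2 ≤ 0 := by rw [h1]; linarith
  have h4 : ‖prp u z‖ = 0 := by
    have := sq_nonneg ‖prp u z‖
    exact pow_eq_zero_iff (two_ne_zero) |>.mp (le_antisymm h3 this)
  have h5 : prp u z = 0 := norm_eq_zero.mp h4
  exact h _ (sub_eq_zero.mp h5)

theorem norm_inner_ne (hx : IsMaxETF d x) {i j : Fin (d ^ 2)} (h : i ≠ j) :
    ‖⟪x i, x j⟫_ℂ‖ ^ 2 = 1 / ((d : ℝ) + 1) := by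
  rw [hx.2 i j h, div_pow, Real.sq_sqrt (by positivity), one_pow]

theorem p_eq (hd : 0 < d) (z : EuclideanSpace ℂ (Fin d)) (i : Fin (d ^ 2)) :
    ‖⟪x i, z⟫_ℂ‖ ^ 2 = (d * wt x z i + 1) / (d + 1) := by
  have hd0 : (d : ℝ) ≠ 0 := by exact_mod_cast hd.ne'
  have hd1 : (d : ℝ) + 1 ≠ 0 := by positivity
  rw [wt]; field_simp; ring

theorem wt_eq_zero_iff (hd : 0 < d) (z : EuclideanSpace ℂ (Fin d)) (i : Fin (d ^ 2)) :
    wt x z i = 0 ↔ ‖⟪x i, z⟫_ℂ‖ = 1 / Real.sqrt ((d : ℝ) + 1) := by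
  have hd0 : (d : ℝ) ≠ 0 := by exact_mod_cast hd.ne'
  have hd1 : (0 : ℝ) < (d : ℝ) + 1 := by positivity
  have h1 : 1 / Real.sqrt ((d : ℝ) + 1) = Real.sqrt (1 / ((d : ℝ) + 1)) := by
    rw [Real.sqrt_div' _ hd1.le, Real.sqrt_one]
  rw [h1, eq_comm (a := ‖⟪x i, z⟫_ℂ‖), Real.sqrt_eq_iff_mul_self_eq (by positivity) (norm_nonneg _),
    ← sq, p_eq hd]
  constructor
  · intro h; rw [h]; ring
  · intro h
    field_simp at h
    have : (d : ℝ) * wt x z i = 0 := by linarith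
    exact (mul_eq_zero.mp this).resolve_left hd0

theorem wt_lt_one (hd : 0 < d) {z : EuclideanSpace ℂ (Fin d)} {i : Fin (d ^ 2)}
    (h : ‖⟪x i, z⟫_ℂ‖ ^ 2 < 1) : wt x z i < 1 := by
  rw [p_eq hd, div_lt_one (by positivity)] at h
  have hd0 : (0 : ℝ) < d := by exact_mod_cast hd
  by_contra hcon
  push Not at hcon
  nlinarith

theorem wt_ge (hd : 0 < d) (z : EuclideanSpace ℂ (Fin d)) (i : Fin (d ^ 2)) :
    -(1 / (d : ℝ)) ≤ wt x z i := by
  have hd0 : (0 : ℝ) < d := by exact_mod_cast hd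
  rw [wt, ← neg_div, div_le_div_iff_of_pos_right hd0]
  have : 0 ≤ ((d : ℝ) + 1) * ‖⟪x i, z⟫_ℂ‖ ^ 2 := by positivity
  linarith

theorem one_sub_p (hd : 0 < d) (z : EuclideanSpace ℂ (Fin d)) (i : Fin (d ^ 2)) :
    1 - ‖⟪x i, z⟫_ℂ‖ ^ 2 = d * (1 - wt x z i) / (d + 1) := by
  have hd1 : (d : ℝ) + 1 ≠ 0 := by positivity
  rw [p_eq hd]; field_simp; ring

/-- Number of lines at an angle different from the angle of the frame, first bound. -/
theorem card_ge_d (hd : 0 < d) (hx : IsMaxETF d x) {z : EuclideanSpace ℂ (Fin d)} (hz : ‖z‖ = 1)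
    (hf : ∀ i, ‖⟪x i, z⟫_ℂ‖ ^ 2 < 1) :
    d ≤ (Finset.univ.filter fun i => wt x z i ≠ 0).card := by
  classical
  set J := Finset.univ.filter fun i => wt x z i ≠ 0 with hJ
  have hmem : ∀ i, i ∈ J ↔ wt x z i ≠ 0 := by simp [hJ]
  let y : J → EuclideanSpace ℂ (Fin d) := fun i => x i
  have hn2 : 2 ≤ J.card := by
    by_contra hcon
    have hle : J.card ≤ 1 := by omega
    have hs : ∑ i ∈ J, wt x z i = 1 := by
      rw [← sum_wt hd hx hz]
      refine Finset.sum_subset (Finset.subset_univ _) fun i _ hi => ?_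
      rw [hmem] at hi; push Not at hi; exact hi
    have : Nonempty (Fin (d ^ 2)) := ⟨⟨0, by positivity⟩⟩
    rcases Finset.card_le_one_iff_subset_singleton.mp hle with ⟨i, hi⟩
    rcases Finset.subset_singleton_iff.mp hi with h0 | h0
    · rw [h0] at hs; simp at hs
    · rw [h0, Finset.sum_singleton] at hs
      exact absurd hs (wt_lt_one hd (hf i)).ne
  have hrank := rank_ineq y (fun i => (wt x z i : ℂ))
    (fun i => by
      have := (hmem i).mp i.2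
      exact_mod_cast this) z
    (fun v => by
      refine ext_inner_left ℂ fun u => ?_
      rw [inner_sum, inner_smul_right, ← expand hd hx hz u v]
      rw [← Finset.sum_subset (Finset.subset_univ J) (fun i _ hi => by
        rw [hmem] at hi; push Not at hi; rw [hi]; simp), ← Finset.sum_coe_sort J]
      refine Finset.sum_congr rfl fun i _ => ?_
      rw [inner_smul_right]; ring)
  set U := Submodule.span ℂ (Set.range y) with hU
  let y' : J → U := fun i => ⟨y i, Submodule.subset_span ⟨i, rfl⟩⟩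
  have hpot := pot y'
  have e1 : ∀ i, ‖y' i‖ = 1 := fun i => hx.1 i
  have e2 : ∀ i j : J, ‖⟪y' i, y' j⟫_ℂ‖ ^ 2
      = (if i = j then (d : ℝ) / (d + 1) else 0) + 1 / ((d : ℝ) + 1) := by
    intro i j
    have hd1 : (d : ℝ) + 1 ≠ 0 := by positivity
    change ‖⟪x i, x j⟫_ℂ‖ ^ 2 = _
    split_ifs with h
    · subst h
      rw [inner_self_one (hx.1 i)]
      simp; field_simp
    · rw [norm_inner_ne hx (fun h' => h (Subtype.ext h'))]; ring
  simp only [e1, e2] at hpot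
  simp only [one_pow, Finset.sum_const, Finset.card_univ, Fintype.card_coe, nsmul_eq_mul, mul_one,
    Finset.sum_add_distrib, Finset.sum_ite_eq, Finset.mem_univ, if_true] at hpot
  rw [Fintype.card_coe] at hrank
  set n := J.card with hn
  set ρ := Module.finrank ℂ U with hρ
  have hrank' : 2 * (ρ : ℝ) ≤ n + 1 := by exact_mod_cast hrank
  have hn2' : (2 : ℝ) ≤ n := by exact_mod_cast hn2
  have hd0 : (0 : ℝ) < d := by exact_mod_cast hd
  have h3 : (n : ℝ) * (d + 1) ≤ ρ * (n + d) := by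
    have h4 : (n : ℝ) ^ 2 * (d + 1) ≤ (ρ * (n + d)) * n := by
      have hd1 : (d : ℝ) + 1 ≠ 0 := by positivity
      have h5 := mul_le_mul_of_nonneg_right hpot (show (0 : ℝ) ≤ d + 1 by positivity)
      have h6 : (ρ : ℝ) * (n * ((d : ℝ) / (d + 1) + n * (1 / ((d : ℝ) + 1)))) * (d + 1)
          = (ρ * (n + d)) * n := by
        field_simp
        ring
      rw [h6] at h5
      exact h5
    nlinarith
  have h7 : ((n : ℝ) - 1) * (n - d) ≥ 0 := by nlinarith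
  have h8 : (d : ℝ) ≤ n := by
    by_contra hcon
    push Not at hcon
    nlinarith
  exact_mod_cast h8

end Pool.Agent.H207.SR
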