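import Mathlib
import Pool.Agent.H207.SR.Bounds

set_option autoImplicit false

namespace Pool.Agent.H207.SR

open scoped InnerProductSpace ComplexConjugate
open Pool.Agent.H109R2.SIC

variable {d : ℕ} {x : Fin (d ^ 2) → EuclideanSpace ℂ (Fin d)}

/-- Number of lines at a given angle, first bound, for `d ≥ 3`. -/
theorem card_ge_d_gen (hd : 3 ≤ d) (hx : IsMaxETF d x) {z : EuclideanSpace ℂ (Fin d)}
    (hz : ‖z‖ = 1) (hf : ∀ i, ‖⟪x i, z⟫_ℂ‖ ^ 2 < 1) (a : ℝ) :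
    d ≤ (Finset.univ.filter fun i => ‖⟪x i, z⟫_ℂ‖ ≠ a).card := by
  classical
  have hdp : 0 < d := by omega
  have hd0 : (0 : ℝ) < d := by exact_mod_cast hdp
  have hd3 : (3 : ℝ) ≤ d := by exact_mod_cast hd
  set J := Finset.univ.filter fun i => ‖⟪x i, z⟫_ℂ‖ ≠ a with hJ
  have hmem : ∀ i, i ∈ J ↔ ‖⟪x i, z⟫_ℂ‖ ≠ a := by simp [hJ]
  by_contra hcon
  push Not at hcon
  -- a vector orthogonal to all the `x i`, `i ∈ J`
  let T : EuclideanSpace ℂ (Fin d) →ₗ[ℂ] (J → ℂ) := LinearMap.pi fun i => innerₛₗ ℂ (x i)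
  have hT : ∀ v i, T v i = ⟪x i, v⟫_ℂ := fun v i => rfl
  have hker : LinearMap.ker T ≠ ⊥ := by
    intro h0
    have h1 := LinearMap.finrank_range_add_finrank_ker T
    rw [h0, finrank_bot, add_zero, finrank_euclideanSpace_fin] at h1
    have h2 := Submodule.finrank_le (LinearMap.range T)
    rw [Module.finrank_fintype_fun_eq_card, Fintype.card_coe] at h2
    omega
  obtain ⟨v, hv, hv0⟩ := Submodule.exists_mem_ne_zero_of_ne_bot hker
  have hvJ : ∀ i ∈ J, ⟪x i, v⟫_ℂ = 0 := by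
    intro i hi
    have := congrFun (LinearMap.mem_ker.mp hv) ⟨i, hi⟩
    rwa [hT] at this
  by_cases hJu : J = Finset.univ
  · rw [hJu, Finset.card_univ, Fintype.card_fin] at hcon
    nlinarith
  obtain ⟨i0, hi0⟩ : ∃ i0, i0 ∉ J := by
    by_contra h; push Not at h; exact hJu (Finset.eq_univ_iff_forall.mpr h)
  have hwc : ∀ i, i ∉ J → wt x z i = wt x z i0 := by
    intro i hi
    rw [hmem] at hi hi0
    push Not at hi hi0
    rw [wt, wt, hi, hi0]
  set κ := wt x z i0 with hκ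
  by_cases hk0 : κ = 0
  · -- the angle of the frame
    have h1 := card_ge_d hdp hx hz hf
    have h2 : (Finset.univ.filter fun i => wt x z i ≠ 0) ⊆ J := by
      intro i hi
      by_contra hi'
      rw [Finset.mem_filter] at hi
      exact hi.2 ((hwc i hi').trans hk0)
    have := Finset.card_le_card h2
    omega
  have hkey : ∀ u : EuclideanSpace ℂ (Fin d), (κ : ℂ) * (d * ⟪u, v⟫_ℂ) = ⟪z, v⟫_ℂ * ⟪u, z⟫_ℂ := by
    intro u
    rw [← expand hdp hx hz u v, ← frm hx u v, Finset.mul_sum]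
    refine Finset.sum_congr rfl fun i _ => ?_
    by_cases hi : i ∈ J
    · rw [hvJ i hi]; ring
    · rw [hwc i hi]
  have hd0c : (d : ℂ) ≠ 0 := by exact_mod_cast hdp.ne'
  have hk0c : (κ : ℂ) ≠ 0 := by exact_mod_cast hk0
  have hzv : ⟪z, v⟫_ℂ ≠ 0 := by
    intro h0
    have h1 := hkey v
    rw [h0, zero_mul] at h1
    have h2 : ⟪v, v⟫_ℂ = 0 := by
      rcases mul_eq_zero.mp h1 with h | h
      · exact absurd h hk0c
      · exact (mul_eq_zero.mp h).resolve_left hd0c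
    exact hv0 (inner_self_eq_zero.mp h2)
  have hkd : (κ : ℂ) * d = 1 := by
    have h1 := hkey z
    rw [inner_self_one hz, ← mul_assoc, mul_one] at h1
    exact mul_right_cancel₀ hzv (by rw [h1, one_mul])
  have hzJ : ∀ i ∈ J, ⟪x i, z⟫_ℂ = 0 := by
    intro i hi
    have h1 := hkey (x i)
    rw [hvJ i hi, mul_zero, mul_zero] at h1
    exact (mul_eq_zero.mp h1.symm).resolve_left hzv
  have hkd' : κ * d = 1 := by exact_mod_cast hkd
  have hp : ∀ i, ‖⟪x i, z⟫_ℂ‖ ^ 2 = if i ∈ J then 0 else 2 / ((d : ℝ) + 1) := by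
    intro i
    split_ifs with hi
    · rw [hzJ i hi]; simp
    · rw [p_eq hdp, hwc i hi, mul_comm, hkd']; norm_num
  have h1 := sum_p hx z
  rw [hz] at h1
  simp only [hp] at h1
  rw [← Finset.sum_filter_add_sum_filter_not (s := Finset.univ) (p := fun i => i ∈ J)] at h1
  rw [Finset.sum_congr rfl (g := fun _ => (0 : ℝ)) (fun i hi => by
      rw [Finset.mem_filter] at hi; rw [if_pos hi.2]),
    Finset.sum_congr rfl (s₁ := Finset.univ.filter fun i => ¬ i ∈ J)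
      (g := fun _ => 2 / ((d : ℝ) + 1)) (fun i hi => by
      rw [Finset.mem_filter] at hi; rw [if_neg hi.2])] at h1
  rw [Finset.sum_const_zero, zero_add, Finset.sum_const, nsmul_eq_mul] at h1
  have h2 : ((Finset.univ.filter fun i => ¬ i ∈ J).card : ℝ) = (d : ℝ) ^ 2 - J.card := by
    have h3 : (Finset.univ.filter fun i => ¬ i ∈ J) = Jᶜ := by ext i; simp
    rw [h3, Finset.card_compl, Fintype.card_fin, Nat.cast_sub]
    · push_cast; rfl
    · have := Finset.card_le_univ J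
      rwa [Fintype.card_fin] at this
  rw [h2] at h1
  have h3 : (J.card : ℝ) < d := by exact_mod_cast hcon
  field_simp at h1
  nlinarith

/-- The bound when one of the weights is positive. -/
theorem caseA (hd : 0 < d) (hx : IsMaxETF d x) {z : EuclideanSpace ℂ (Fin d)} (hz : ‖z‖ = 1)
    (i0 : Fin (d ^ 2)) (hp : ‖⟪x i0, z⟫_ℂ‖ ^ 2 < 1) (hw : 0 < wt x z i0) :
    wt x z i0 ^ 4 * (d * (d + 1)) ≤ 2 * (1 + wt x z i0) ^ 2 *
      ((Finset.univ.filter fun i => wt x z i ≠ 0).card - 1) := by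
  classical
  set J := Finset.univ.filter fun i => wt x z i ≠ 0 with hJ
  have hmem : ∀ i, i ∈ J ↔ wt x z i ≠ 0 := by simp [hJ]
  set W := wt x z i0 with hW
  have hd0 : (0 : ℝ) < d := by exact_mod_cast hd
  have hd1 : (0 : ℝ) < (d : ℝ) + 1 := by positivity
  have hW1 : W < 1 := wt_lt_one hd hp
  set δ : ℝ := 1 - ‖⟪x i0, z⟫_ℂ‖ ^ 2 with hδ
  have hδ0 : 0 < δ := by rw [hδ]; linarith
  have hδe : δ = d * (1 - W) / (d + 1) := one_sub_p hd z i0
  let v := prp z (x i0)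
  have hv : ‖v‖ ^ 2 = δ := norm_prp hz (hx.1 i0)
  have hi0J : i0 ∈ J := (hmem i0).mpr hw.ne'
  let S := J.erase i0
  have hScard : (S.card : ℝ) = J.card - 1 := by
    have : S.card + 1 = J.card := Finset.card_erase_add_one hi0J
    have h : ((S.card : ℝ)) + 1 = J.card := by exact_mod_cast this
    linarith
  have hex := expand hd hx hz (x i0) v
  rw [inner_prp hz, zero_mul] at hex
  have hex2 : ((W * δ : ℝ) : ℂ) = - ∑ i ∈ S, (wt x z i : ℂ) * (⟪x i, v⟫_ℂ * ⟪x i0, x i⟫_ℂ) := by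
    have h1 : ∑ i ∈ J, (wt x z i : ℂ) * (⟪x i, v⟫_ℂ * ⟪x i0, x i⟫_ℂ) = 0 := by
      rw [← hex]
      refine Finset.sum_subset (Finset.subset_univ _) fun i _ hi => ?_
      rw [hmem] at hi; push Not at hi; rw [hi]; simp
    rw [← Finset.add_sum_erase J _ hi0J] at h1
    have e1 : ⟪x i0, v⟫_ℂ = ((δ : ℝ) : ℂ) := inner_self_prp (hx.1 i0)
    rw [eq_neg_iff_add_eq_zero, ← h1, e1, inner_self_one (hx.1 i0), mul_one, Complex.ofReal_mul]
  have hin : W * δ ≤ (1 / Real.sqrt (d + 1)) * ∑ i ∈ S, |wt x z i| * ‖⟪x i, v⟫_ℂ‖ := by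
    have h1 : ‖((W * δ : ℝ) : ℂ)‖ = W * δ := by
      rw [Complex.norm_real, Real.norm_of_nonneg (by positivity)]
    rw [← h1, hex2, norm_neg, Finset.mul_sum]
    refine (norm_sum_le _ _).trans (Finset.sum_le_sum fun i hi => ?_)
    rw [norm_mul, norm_mul, Complex.norm_real, Real.norm_eq_abs,
      hx.2 i0 i (Finset.ne_of_mem_erase hi).symm]
    apply le_of_eq; ring
  set L := ∑ i ∈ S, ‖⟪x i, v⟫_ℂ‖ ^ 2 with hL
  have hL0 : 0 ≤ L := Finset.sum_nonneg fun i _ => by positivity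
  have hcs : (∑ i ∈ S, |wt x z i| * ‖⟪x i, v⟫_ℂ‖) ^ 2 ≤ (1 - W ^ 2) * L := by
    refine (Finset.sum_mul_sq_le_sq_mul_sq _ _ _).trans ?_
    refine mul_le_mul_of_nonneg_right ?_ hL0
    have h1 : ∑ i ∈ S, |wt x z i| ^ 2 + W ^ 2 ≤ ∑ i, wt x z i ^ 2 := by
      simp only [sq_abs]
      rw [Finset.sum_erase_add J _ hi0J]
      exact Finset.sum_le_sum_of_subset_of_nonneg (Finset.subset_univ _) fun i _ _ => by positivity
    rw [sum_wt_sq hd hx hz] at h1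
    linarith
  have hL2 : L ^ 2 ≤ ((J.card : ℝ) - 1) * (2 * d / (d + 1) * δ ^ 2) := by
    have h1 := Finset.sum_mul_sq_le_sq_mul_sq S (fun _ => (1 : ℝ)) (fun i => ‖⟪x i, v⟫_ℂ‖ ^ 2)
    simp only [one_mul, one_pow, Finset.sum_const, nsmul_eq_mul, mul_one] at h1
    rw [hScard] at h1
    refine h1.trans (mul_le_mul_of_nonneg_left ?_ (by rw [← hScard]; positivity))
    have h2 : ∑ i ∈ S, (‖⟪x i, v⟫_ℂ‖ ^ 2) ^ 2 ≤ ∑ i, ‖⟪x i, v⟫_ℂ‖ ^ 4 := by
      rw [show (∑ i ∈ S, (‖⟪x i, v⟫_ℂ‖ ^ 2) ^ 2) = ∑ i ∈ S, ‖⟪x i, v⟫_ℂ‖ ^ 4 from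
        Finset.sum_congr rfl fun i _ => by ring]
      exact Finset.sum_le_sum_of_subset_of_nonneg (Finset.subset_univ _) fun i _ _ => by positivity
    refine h2.trans ?_
    rw [sum_p4 hx v, ← hv]
    apply le_of_eq; ring
  have hsq : W ^ 2 * δ ^ 2 * (d + 1) ≤ (1 - W ^ 2) * L := by
    have h1 : (W * δ) ^ 2 ≤ (1 / (d + 1)) * ((1 - W ^ 2) * L) := by
      have h2 : (W * δ) ^ 2 ≤ ((1 / Real.sqrt (d + 1)) *
          ∑ i ∈ S, |wt x z i| * ‖⟪x i, v⟫_ℂ‖) ^ 2 := pow_le_pow_left₀ (by positivity) hin 2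
      rw [mul_pow (1 / Real.sqrt ((d : ℝ) + 1)), div_pow, Real.sq_sqrt hd1.le, one_pow] at h2
      exact h2.trans (mul_le_mul_of_nonneg_left hcs (by positivity))
    have h3 := mul_le_mul_of_nonneg_left h1 hd1.le
    have h4 : ((d : ℝ) + 1) * ((1 / (d + 1)) * ((1 - W ^ 2) * L)) = (1 - W ^ 2) * L := by
      field_simp
    rw [h4] at h3
    calc W ^ 2 * δ ^ 2 * (d + 1) = (d + 1) * (W * δ) ^ 2 := by ring
      _ ≤ _ := h3
  have hsq2 : (W ^ 2 * δ ^ 2 * (d + 1)) ^ 2 ≤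
      (1 - W ^ 2) ^ 2 * (((J.card : ℝ) - 1) * (2 * d / (d + 1) * δ ^ 2)) := by
    refine (pow_le_pow_left₀ (by positivity) hsq 2).trans ?_
    rw [mul_pow]
    exact mul_le_mul_of_nonneg_left hL2 (by positivity)
  have hone : 0 < 1 - W := by linarith
  -- substitute `δ`
  have h1 : (W ^ 2 * δ ^ 2 * (d + 1)) ^ 2 = (δ ^ 2 * (1 - W) ^ 2 * (d / (d + 1))) *
      (W ^ 4 * (d * (d + 1))) := by
    rw [hδe]; field_simp
  have h2 : (1 - W ^ 2) ^ 2 * (((J.card : ℝ) - 1) * (2 * d / (d + 1) * δ ^ 2)) =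
      (δ ^ 2 * (1 - W) ^ 2 * (d / (d + 1))) * (2 * (1 + W) ^ 2 * ((J.card : ℝ) - 1)) := by
    ring
  rw [h1, h2] at hsq2
  exact le_of_mul_le_mul_left hsq2 (by positivity)

end Pool.Agent.H207.SR
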