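import Mathlib
import Pool.Agent.H207.SR.Bounds2

set_option autoImplicit false

namespace Pool.Agent.H207.SR

open scoped InnerProductSpace ComplexConjugate
open Pool.Agent.H109R2.SIC

variable {d : ℕ} {x : Fin (d ^ 2) → EuclideanSpace ℂ (Fin d)}

/-- `|⟨x_i, x_j^⊥⟩|²`. -/
noncomputable def Hm (x : Fin (d ^ 2) → EuclideanSpace ℂ (Fin d)) (z : EuclideanSpace ℂ (Fin d))
    (i j : Fin (d ^ 2)) : ℝ := ‖⟪x i, prp z (x j)⟫_ℂ‖ ^ 2

theorem Hm_nonneg (z : EuclideanSpace ℂ (Fin d)) (i j : Fin (d ^ 2)) : 0 ≤ Hm x z i j := by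
  unfold Hm; positivity

theorem Hm_symm (z : EuclideanSpace ℂ (Fin d)) (i j : Fin (d ^ 2)) :
    Hm x z i j = Hm x z j i := by
  unfold Hm
  congr 1
  rw [inner_prp_right, inner_prp_right, ← Complex.norm_conj]
  congr 1
  rw [map_sub, map_mul, inner_conj_symm, inner_conj_symm, inner_conj_symm]
  ring

theorem Hm_diag (hx : IsMaxETF d x) (z : EuclideanSpace ℂ (Fin d)) (i : Fin (d ^ 2)) :
    Hm x z i i = (1 - ‖⟪x i, z⟫_ℂ‖ ^ 2) ^ 2 := by
  unfold Hm
  rw [inner_self_prp (hx.1 i), Complex.norm_real, Real.norm_eq_abs, sq_abs]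

theorem Hm_sum (hd : 0 < d) (hx : IsMaxETF d x) {z : EuclideanSpace ℂ (Fin d)} (hz : ‖z‖ = 1)
    (j : Fin (d ^ 2)) : ∑ i, wt x z i * Hm x z i j = 0 := by
  have h := expand hd hx hz (prp z (x j)) (prp z (x j))
  rw [inner_prp hz, zero_mul] at h
  simp only [inner_nrm] at h
  unfold Hm
  exact_mod_cast h

theorem Hm_off (hx : IsMaxETF d x) (z : EuclideanSpace ℂ (Fin d)) {i j : Fin (d ^ 2)}
    (hij : i ≠ j) (hi : ‖⟪x i, z⟫_ℂ‖ ≤ 1 / Real.sqrt (d + 1))
    (hj : ‖⟪x j, z⟫_ℂ‖ ≤ 1 / Real.sqrt (d + 1)) :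
    Hm x z i j ≤ (1 + 1 / Real.sqrt (d + 1)) ^ 2 / (d + 1) := by
  unfold Hm
  have hd1 : (0 : ℝ) < (d : ℝ) + 1 := by positivity
  have h1 : ‖⟪x i, prp z (x j)⟫_ℂ‖ ≤ (1 + 1 / Real.sqrt (d + 1)) * (1 / Real.sqrt (d + 1)) := by
    rw [inner_prp_right]
    refine (norm_sub_le _ _).trans ?_
    rw [norm_mul, hx.2 i j hij, norm_inner_symm z (x j)]
    have h2 : ‖⟪x j, z⟫_ℂ‖ * ‖⟪x i, z⟫_ℂ‖ ≤ (1 / Real.sqrt (d + 1)) * (1 / Real.sqrt (d + 1)) :=
      mul_le_mul hj hi (norm_nonneg _) (by positivity)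
    linarith
  refine (pow_le_pow_left₀ (norm_nonneg _) h1 2).trans ?_
  rw [mul_pow, div_pow (1 : ℝ) (Real.sqrt ((d : ℝ) + 1)), Real.sq_sqrt hd1.le]
  apply le_of_eq; ring

/-- The bound when all the weights are at most `ω`. -/
theorem caseB0 (hd : 0 < d) (hx : IsMaxETF d x) {z : EuclideanSpace ℂ (Fin d)} (hz : ‖z‖ = 1)
    {ω : ℝ} (hω1 : ω ≤ 1) (hω : ∀ i, wt x z i ≤ ω) :
    ∃ s τ : ℝ, (d * τ = ∑ i, max 0 (1 - ((d : ℝ) + 1) * ‖⟪x i, z⟫_ℂ‖ ^ 2)) ∧
      0 ≤ s ∧ 0 ≤ τ ∧ s ≤ τ / d ∧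
      d * τ ≤ (Finset.univ.filter fun i => wt x z i ≠ 0).card ∧
      (1 - ω) ^ 2 * (d / (d + 1)) ^ 2 * (1 - s) ≤
        s + τ ^ 2 * ((1 + 1 / Real.sqrt (d + 1)) ^ 2 / (d + 1)) := by
  classical
  have hd0 : (0 : ℝ) < d := by exact_mod_cast hd
  have hd1 : (0 : ℝ) < (d : ℝ) + 1 := by positivity
  let P := Finset.univ.filter fun i => 0 < wt x z i
  let M := Finset.univ.filter fun i => wt x z i < 0
  have hP : ∀ i, i ∈ P ↔ 0 < wt x z i := by simp [P]
  have hM : ∀ i, i ∈ M ↔ wt x z i < 0 := by simp [M]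
  have hdisj : Disjoint P M := by
    rw [Finset.disjoint_left]; intro i h1 h2
    rw [hP] at h1; rw [hM] at h2; linarith
  have hsplit : ∀ f : Fin (d ^ 2) → ℝ, (∀ i, wt x z i = 0 → f i = 0) →
      ∑ i, f i = ∑ i ∈ P, f i + ∑ i ∈ M, f i := by
    intro f hf
    rw [← Finset.sum_union hdisj]
    symm
    refine Finset.sum_subset (Finset.subset_univ _) fun i _ hi => ?_
    rw [Finset.mem_union, hP, hM] at hi
    push Not at hi
    exact hf i (le_antisymm hi.1 hi.2)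
  set s := ∑ i ∈ M, wt x z i ^ 2 with hs
  set τ := ∑ i ∈ M, (-wt x z i) with hτ
  have hs0 : 0 ≤ s := Finset.sum_nonneg fun i _ => by positivity
  have hτ0 : 0 ≤ τ := Finset.sum_nonneg fun i hi => by rw [hM] at hi; linarith
  have hs1 : s ≤ τ / d := by
    rw [hs, hτ, Finset.sum_div]
    refine Finset.sum_le_sum fun i hi => ?_
    rw [hM] at hi
    have := wt_ge hd z i (x := x)
    rw [show wt x z i ^ 2 = (-wt x z i) * (-wt x z i) by ring, div_eq_mul_one_div]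
    exact mul_le_mul_of_nonneg_left (by linarith) (by linarith)
  have hcard : d * τ ≤ (Finset.univ.filter fun i => wt x z i ≠ 0).card := by
    have h1 : d * τ ≤ M.card := by
      rw [hτ, Finset.mul_sum, Finset.card_eq_sum_ones, Nat.cast_sum]
      refine Finset.sum_le_sum fun i _ => ?_
      have := wt_ge hd z i (x := x)
      have h2 : d * (-wt x z i) ≤ d * (1 / d) := mul_le_mul_of_nonneg_left (by linarith) hd0.le
      rw [mul_one_div_cancel hd0.ne'] at h2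
      simpa using h2
    refine h1.trans ?_
    have h2 : M ⊆ Finset.univ.filter fun i => wt x z i ≠ 0 := by
      intro i hi
      rw [hM] at hi
      simp [hi.ne]
    exact_mod_cast Finset.card_le_card h2
  have hneg : d * τ = ∑ i, max 0 (1 - ((d : ℝ) + 1) * ‖⟪x i, z⟫_ℂ‖ ^ 2) := by
    have h1 : ∀ i, max 0 (1 - ((d : ℝ) + 1) * ‖⟪x i, z⟫_ℂ‖ ^ 2) =
        if wt x z i < 0 then d * (-wt x z i) else 0 := by
      intro i
      have h2 : 1 - ((d : ℝ) + 1) * ‖⟪x i, z⟫_ℂ‖ ^ 2 = d * (-wt x z i) := by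
        rw [p_eq hd]; field_simp; ring
      rw [h2]
      split_ifs with h
      · exact max_eq_right (mul_nonneg hd0.le (by linarith))
      · push Not at h
        exact max_eq_left (mul_nonpos_of_nonneg_of_nonpos hd0.le (by linarith))
    rw [hτ, Finset.mul_sum, Finset.sum_congr rfl fun i _ => h1 i, ← Finset.sum_filter]
  refine ⟨s, τ, hneg, hs0, hτ0, hs1, hcard, ?_⟩
  -- the main inequality
  have hswap : ∀ j, ∑ i ∈ P, wt x z i * Hm x z i j = ∑ i ∈ M, (-wt x z i) * Hm x z i j := by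
    intro j
    have h1 := Hm_sum hd hx hz j
    rw [hsplit _ (fun i hi => by rw [hi, zero_mul])] at h1
    have h2 : ∑ i ∈ M, (-wt x z i) * Hm x z i j = - ∑ i ∈ M, wt x z i * Hm x z i j := by
      rw [← Finset.sum_neg_distrib]
      exact Finset.sum_congr rfl fun i _ => by ring
    rw [h2]; linarith
  have hX : ∑ j ∈ P, wt x z j * ∑ i ∈ P, wt x z i * Hm x z i j
      = ∑ j ∈ M, (-wt x z j) * ∑ i ∈ M, (-wt x z i) * Hm x z i j := by
    calc ∑ j ∈ P, wt x z j * ∑ i ∈ P, wt x z i * Hm x z i j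
        = ∑ j ∈ P, wt x z j * ∑ i ∈ M, (-wt x z i) * Hm x z i j :=
          Finset.sum_congr rfl fun j _ => by rw [hswap]
      _ = ∑ j ∈ P, ∑ i ∈ M, wt x z j * ((-wt x z i) * Hm x z i j) :=
          Finset.sum_congr rfl fun j _ => Finset.mul_sum _ _ _
      _ = ∑ i ∈ M, ∑ j ∈ P, wt x z j * ((-wt x z i) * Hm x z i j) := Finset.sum_comm
      _ = ∑ i ∈ M, (-wt x z i) * ∑ j ∈ P, wt x z j * Hm x z j i :=
          Finset.sum_congr rfl fun i _ => by
            rw [Finset.mul_sum]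
            refine Finset.sum_congr rfl fun j _ => ?_
            rw [Hm_symm z j i]; ring
      _ = _ := Finset.sum_congr rfl fun i _ => by rw [hswap]
  have hlow : (1 - ω) ^ 2 * (d / (d + 1)) ^ 2 * (1 - s) ≤
      ∑ j ∈ P, wt x z j * ∑ i ∈ P, wt x z i * Hm x z i j := by
    have h1 : 1 - s = ∑ j ∈ P, wt x z j ^ 2 := by
      have h2 := sum_wt_sq hd hx hz
      rw [hsplit _ (fun i hi => by rw [hi]; ring)] at h2
      linarith
    rw [h1, Finset.mul_sum]
    refine Finset.sum_le_sum fun j hj => ?_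
    have hj' := (hP j).mp hj
    have h2 : wt x z j * Hm x z j j ≤ ∑ i ∈ P, wt x z i * Hm x z i j :=
      Finset.single_le_sum (f := fun i => wt x z i * Hm x z i j) (fun i hi => by
        have := (hP i).mp hi
        exact mul_nonneg this.le (Hm_nonneg z i j)) hj
    have h3 : (1 - ω) ^ 2 * (d / (d + 1)) ^ 2 ≤ Hm x z j j := by
      rw [Hm_diag hx, one_sub_p hd z j, ← mul_pow]
      have h5 : 0 ≤ (1 - ω) * (d / ((d : ℝ) + 1)) := mul_nonneg (by linarith) (by positivity)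
      refine pow_le_pow_left₀ h5 ?_ 2
      have h4 : (d : ℝ) * (1 - wt x z j) / (d + 1) = (1 - wt x z j) * (d / (d + 1)) := by ring
      rw [h4]
      exact mul_le_mul_of_nonneg_right (by linarith [hω j]) (by positivity)
    calc (1 - ω) ^ 2 * (d / (d + 1)) ^ 2 * wt x z j ^ 2 ≤ Hm x z j j * wt x z j ^ 2 :=
          mul_le_mul_of_nonneg_right h3 (by positivity)
      _ = wt x z j * (wt x z j * Hm x z j j) := by ring
      _ ≤ _ := mul_le_mul_of_nonneg_left h2 hj'.le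
  refine hlow.trans ?_
  rw [hX]
  set K : ℝ := (1 + 1 / Real.sqrt (d + 1)) ^ 2 / (d + 1) with hK
  have hK0 : 0 ≤ K := by positivity
  have hsmall : ∀ i ∈ M, ‖⟪x i, z⟫_ℂ‖ ≤ 1 / Real.sqrt (d + 1) := by
    intro i hi
    rw [hM] at hi
    rw [one_div, ← Real.sqrt_inv]
    apply Real.le_sqrt_of_sq_le
    rw [p_eq hd, inv_eq_one_div, div_le_div_iff_of_pos_right hd1]
    nlinarith
  have hup : ∀ j ∈ M, (-wt x z j) * ∑ i ∈ M, (-wt x z i) * Hm x z i j
      ≤ wt x z j ^ 2 + (-wt x z j) * (τ * K) := by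
    intro j hj
    have hj' := (hM j).mp hj
    have h1 : ∑ i ∈ M, (-wt x z i) * Hm x z i j ≤ (-wt x z j) + τ * K := by
      rw [← Finset.add_sum_erase M _ hj]
      have h2 : (-wt x z j) * Hm x z j j ≤ -wt x z j := by
        have h3 : Hm x z j j ≤ 1 := by
          rw [Hm_diag hx]
          have h4 : 0 ≤ ‖⟪x j, z⟫_ℂ‖ ^ 2 := by positivity
          have h5 : ‖⟪x j, z⟫_ℂ‖ ≤ 1 := by
            have := norm_inner_le_norm (𝕜 := ℂ) (x j) z
            rwa [hx.1, hz, mul_one] at this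
          have h6 : ‖⟪x j, z⟫_ℂ‖ ^ 2 ≤ 1 := pow_le_one₀ (norm_nonneg _) h5
          exact pow_le_one₀ (by linarith) (by linarith)
        nlinarith
      have h7 : ∑ i ∈ M.erase j, (-wt x z i) * Hm x z i j ≤ τ * K := by
        rw [hτ, Finset.sum_mul]
        refine (Finset.sum_le_sum (g := fun i => (-wt x z i) * K) fun i hi => ?_).trans
          (Finset.sum_le_sum_of_subset_of_nonneg (Finset.erase_subset _ _) fun i hi _ => ?_)
        · have hi' := (hM i).mp (Finset.mem_of_mem_erase hi)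
          exact mul_le_mul_of_nonneg_left (Hm_off hx z (Finset.ne_of_mem_erase hi)
            (hsmall i (Finset.mem_of_mem_erase hi)) (hsmall j hj)) (by linarith)
        · have hi' := (hM i).mp hi
          exact mul_nonneg (by linarith) hK0
      linarith
    calc (-wt x z j) * ∑ i ∈ M, (-wt x z i) * Hm x z i j
        ≤ (-wt x z j) * ((-wt x z j) + τ * K) := mul_le_mul_of_nonneg_left h1 (by linarith)
      _ = _ := by ring
  refine (Finset.sum_le_sum hup).trans ?_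
  rw [Finset.sum_add_distrib, ← Finset.sum_mul]
  apply le_of_eq
  ring

theorem caseB (hd : 0 < d) (hx : IsMaxETF d x) {z : EuclideanSpace ℂ (Fin d)} (hz : ‖z‖ = 1)
    {ω : ℝ} (hω1 : ω ≤ 1) (hω : ∀ i, wt x z i ≤ ω) :
    ∃ s τ : ℝ, 0 ≤ s ∧ 0 ≤ τ ∧ s ≤ τ / d ∧
      d * τ ≤ (Finset.univ.filter fun i => wt x z i ≠ 0).card ∧
      (1 - ω) ^ 2 * (d / (d + 1)) ^ 2 * (1 - s) ≤
        s + τ ^ 2 * ((1 + 1 / Real.sqrt (d + 1)) ^ 2 / (d + 1)) := by
  obtain ⟨s, τ, -, h⟩ := caseB0 hd hx hz hω1 hω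
  exact ⟨s, τ, h⟩

/-- The sum of the negative parts is at least of order `√d`. -/
theorem neg_bound (hd : 0 < d) (hx : IsMaxETF d x) {z : EuclideanSpace ℂ (Fin d)} (hz : ‖z‖ = 1)
    {ω : ℝ} (hω : ∀ i, wt x z i ≤ ω) (h3 : 3 ≤ (1 - ω) * Real.sqrt d) :
    (1 - ω) * (d * Real.sqrt d) / 2 ≤ ∑ i, max 0 (1 - ((d : ℝ) + 1) * ‖⟪x i, z⟫_ℂ‖ ^ 2) := by
  have hd0 : (0 : ℝ) < d := by exact_mod_cast hd
  set r := Real.sqrt d with hr
  have hr2 : r ^ 2 = d := Real.sq_sqrt hd0.le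
  have hr0 : 0 < r := Real.sqrt_pos.mpr hd0
  have hω1 : 0 < 1 - ω := by
    by_contra h; push Not at h
    have : (1 - ω) * r ≤ 0 := mul_nonpos_of_nonpos_of_nonneg h hr0.le
    linarith
  have hω0 : 0 ≤ ω := by
    by_contra h; push Not at h
    have h1 := sum_wt hd hx hz
    have h2 : ∑ i, wt x z i ≤ 0 := Finset.sum_nonpos fun i _ => (hω i).trans h.le
    linarith
  obtain ⟨s, τ, hneg, hs0, hτ0, hsτ, -, hmain⟩ := caseB0 hd hx hz (by linarith) hω
  rw [← hneg]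
  set D := 1 - ω with hD
  have hD1 : D ≤ 1 := by rw [hD]; linarith
  suffices h : D * r / 2 ≤ τ by
    have := mul_le_mul_of_nonneg_left h hd0.le
    calc D * (d * r) / 2 = d * (D * r / 2) := by ring
      _ ≤ _ := this
  by_contra hcon
  push Not at hcon
  have hr3 : 3 ≤ r := h3.trans (by nlinarith)
  have hd9 : (9 : ℝ) ≤ d := by nlinarith
  set t := 1 / r with ht
  have ht0 : 0 < t := by positivity
  have htr : t * r = 1 := by rw [ht]; field_simp
  have ht3 : 3 * t ≤ D := by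
    have := mul_le_mul_of_nonneg_right h3 ht0.le
    have h5 : D * r * t = D := by rw [mul_assoc, mul_comm r t, htr, mul_one]
    linarith
  have ht13 : t ≤ 1 / 3 := by linarith
  have hsD : s ≤ D * t / 2 := by
    refine hsτ.trans ?_
    rw [div_le_iff₀ hd0]
    have : D * t / 2 * d = D * r / 2 := by
      rw [← hr2]
      calc D * t / 2 * r ^ 2 = D * r / 2 * (t * r) := by ring
        _ = D * r / 2 := by rw [htr, mul_one]
    rw [this]; exact hcon.le
  have hK : τ ^ 2 * ((1 + 1 / Real.sqrt (d + 1)) ^ 2 / (d + 1)) ≤ D ^ 2 / 4 * (133 / 100) ^ 2 := by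
    have h2 : r ≤ Real.sqrt (d + 1) := Real.sqrt_le_sqrt (by linarith)
    have h3' : 1 / Real.sqrt (d + 1) ≤ t := one_div_le_one_div_of_le hr0 h2
    have h310 : 1 / Real.sqrt (d + 1) ≤ 33 / 100 := by
      rw [div_le_iff₀ (Real.sqrt_pos.mpr (by linarith))]
      have : (100 / 33 : ℝ) ≤ Real.sqrt (d + 1) := by
        apply Real.le_sqrt_of_sq_le
        norm_num
        linarith
      linarith
    have h4 : (1 + 1 / Real.sqrt ((d : ℝ) + 1)) ^ 2 ≤ (133 / 100) ^ 2 := by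
      refine pow_le_pow_left₀ (by positivity) (by linarith) 2
    have h5 : τ ^ 2 ≤ D ^ 2 / 4 * (d + 1) := by
      have h55 : τ ^ 2 ≤ (D * r / 2) ^ 2 := pow_le_pow_left₀ hτ0 hcon.le 2
      have h56 : (D * r / 2) ^ 2 = D ^ 2 / 4 * d := by rw [← hr2]; ring
      rw [h56] at h55
      have : 0 ≤ D ^ 2 / 4 := by positivity
      nlinarith
    have h6 : (1 + 1 / Real.sqrt ((d : ℝ) + 1)) ^ 2 / (d + 1) ≤ (133 / 100) ^ 2 / (d + 1) :=
      div_le_div_of_nonneg_right h4 (by positivity)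
    calc τ ^ 2 * ((1 + 1 / Real.sqrt (d + 1)) ^ 2 / (d + 1))
        ≤ (D ^ 2 / 4 * (d + 1)) * ((133 / 100) ^ 2 / (d + 1)) :=
          mul_le_mul h5 h6 (by positivity) (by positivity)
      _ = D ^ 2 / 4 * (133 / 100) ^ 2 := by field_simp
  have hdd : (9 / 10 : ℝ) ≤ d / (d + 1) := by
    rw [div_le_div_iff₀ (by norm_num) (by positivity)]
    linarith
  have hdd2 : (9 / 10 : ℝ) ^ 2 ≤ (d / (d + 1)) ^ 2 := pow_le_pow_left₀ (by norm_num) hdd 2
  have hs1 : s ≤ D ^ 2 / 6 := by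
    have : D * t ≤ D * (D / 3) := mul_le_mul_of_nonneg_left (by linarith) hω1.le
    nlinarith
  have hD2 : D ^ 2 ≤ 1 := pow_le_one₀ hω1.le hD1
  have hD20 : 0 < D ^ 2 := by positivity
  have hL : D ^ 2 * (9 / 10) ^ 2 * (1 - s) ≤ D ^ 2 * (d / (d + 1)) ^ 2 * (1 - s) := by
    refine mul_le_mul_of_nonneg_right ?_ (by linarith)
    exact mul_le_mul_of_nonneg_left hdd2 hD20.le
  have hfin : D ^ 2 * (9 / 10) ^ 2 * (1 - s) ≤ s + D ^ 2 / 4 * (133 / 100) ^ 2 := by linarith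
  have h7 : D ^ 2 * (9 / 10) ^ 2 * (1 - s) ≥ D ^ 2 * (9 / 10) ^ 2 * (5 / 6) := by
    refine mul_le_mul_of_nonneg_left ?_ (by positivity)
    linarith
  linarith

end Pool.Agent.H207.SR
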