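import Mathlib
import Pool.Agent.H207.SR.Bounds3

set_option autoImplicit false

namespace Pool.Agent.H207.SR

open scoped InnerProductSpace ComplexConjugate
open Pool.Agent.H109R2.SIC

variable {d : ℕ} {x : Fin (d ^ 2) → EuclideanSpace ℂ (Fin d)}

/-- second bound, explicit constant. -/
theorem card_ge_eighth (hd : 0 < d) (hx : IsMaxETF d x) {z : EuclideanSpace ℂ (Fin d)}
    (hz : ‖z‖ = 1) (hf : ∀ i, ‖⟪x i, z⟫_ℂ‖ ^ 2 < 1) :
    (d : ℝ) * Real.sqrt d / 8 ≤ (Finset.univ.filter fun i => wt x z i ≠ 0).card := by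
  have hd0 : (0 : ℝ) < d := by exact_mod_cast hd
  have h1 := card_ge_d hd hx hz hf
  have h1' : (d : ℝ) ≤ (Finset.univ.filter fun i => wt x z i ≠ 0).card := by exact_mod_cast h1
  set n := (Finset.univ.filter fun i => wt x z i ≠ 0).card with hn
  set r := Real.sqrt d with hr
  have hr2 : r ^ 2 = d := Real.sq_sqrt hd0.le
  have hr0 : 0 < r := Real.sqrt_pos.mpr hd0
  by_cases hr8 : r < 8
  · nlinarith
  push Not at hr8
  by_contra hcon
  push Not at hcon
  by_cases hA : ∃ i, 4 / 5 ≤ wt x z i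
  · obtain ⟨i, hi⟩ := hA
    have h2 := caseA hd hx hz i (hf i) (by linarith)
    rw [← hn] at h2
    set W := wt x z i with hW
    have h3 : 16 * (1 + W) ≤ 45 * W ^ 2 := by nlinarith
    have h4 : (16 * (1 + W)) ^ 2 ≤ (45 * W ^ 2) ^ 2 := pow_le_pow_left₀ (by linarith) h3 2
    have h5 : 256 / 2025 * (1 + W) ^ 2 ≤ W ^ 4 := by nlinarith
    have h6 : 256 / 2025 * (1 + W) ^ 2 * (d * (d + 1)) ≤ 2 * (1 + W) ^ 2 * (n - 1) :=
      (mul_le_mul_of_nonneg_right h5 (by positivity)).trans h2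
    have h7 : (1 + W) ^ 2 * (256 / 2025 * (d * (d + 1))) ≤ (1 + W) ^ 2 * (2 * (n - 1)) := by
      nlinarith
    have h8 : 256 / 2025 * ((d : ℝ) * (d + 1)) ≤ 2 * (n - 1) :=
      le_of_mul_le_mul_left h7 (by positivity)
    have h9 : 2 * r ≤ d + 1 := by nlinarith [sq_nonneg (r - 1)]
    have h10 : (d : ℝ) * (2 * r) ≤ d * (d + 1) := mul_le_mul_of_nonneg_left h9 hd0.le
    nlinarith
  · push Not at hA
    obtain ⟨s, τ, hs0, hτ0, hsτ, hτn, hmain⟩ := caseB hd hx hz (ω := 4 / 5) (by norm_num)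
      (fun i => (hA i).le)
    rw [← hn] at hτn
    have hτ8 : τ < r / 8 := by
      have : d * τ < d * (r / 8) := by linarith
      exact lt_of_mul_lt_mul_left this hd0.le
    have hs64 : s ≤ 1 / 64 := by
      refine hsτ.trans ?_
      rw [div_le_div_iff₀ hd0 (by norm_num)]
      nlinarith
    have hK : τ ^ 2 * ((1 + 1 / Real.sqrt (d + 1)) ^ 2 / (d + 1)) ≤ 81 / 4096 := by
      have h2 : 8 ≤ Real.sqrt (d + 1) := hr8.trans (Real.sqrt_le_sqrt (by linarith))
      have h3 : 1 / Real.sqrt (d + 1) ≤ 1 / 8 := one_div_le_one_div_of_le (by norm_num) h2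
      have h4 : (1 + 1 / Real.sqrt ((d : ℝ) + 1)) ^ 2 ≤ (9 / 8) ^ 2 := by
        refine pow_le_pow_left₀ (by positivity) (by linarith) 2
      have h5 : τ ^ 2 ≤ (d + 1) / 64 := by nlinarith
      have h6 : (1 + 1 / Real.sqrt ((d : ℝ) + 1)) ^ 2 / (d + 1) ≤ (9 / 8) ^ 2 / (d + 1) :=
        div_le_div_of_nonneg_right h4 (by positivity)
      calc τ ^ 2 * ((1 + 1 / Real.sqrt (d + 1)) ^ 2 / (d + 1))
          ≤ ((d + 1) / 64) * ((9 / 8) ^ 2 / (d + 1)) :=
            mul_le_mul h5 h6 (by positivity) (by positivity)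
        _ = 81 / 4096 := by field_simp; norm_num
    have hdd : (64 / 65 : ℝ) ≤ d / (d + 1) := by
      rw [div_le_div_iff₀ (by norm_num) (by positivity)]
      nlinarith
    have hdd2 : (64 / 65 : ℝ) ^ 2 ≤ (d / (d + 1)) ^ 2 := pow_le_pow_left₀ (by norm_num) hdd 2
    have hL : (1 - 4 / 5 : ℝ) ^ 2 * (64 / 65) ^ 2 * (63 / 64) ≤
        (1 - 4 / 5) ^ 2 * (d / (d + 1)) ^ 2 * (1 - s) := by
      refine mul_le_mul ?_ (by linarith) (by norm_num) (by positivity)
      exact mul_le_mul_of_nonneg_left hdd2 (by norm_num)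
    have := hL.trans hmain
    norm_num at this
    linarith

/-- second bound, asymptotic constant. -/
theorem card_ge_eps (hd : 0 < d) (hx : IsMaxETF d x) {z : EuclideanSpace ℂ (Fin d)}
    (hz : ‖z‖ = 1) (hf : ∀ i, ‖⟪x i, z⟫_ℂ‖ ^ 2 < 1) {ε : ℝ} (hε : 0 < ε)
    (hεd : 128 ≤ ε ^ 4 * Real.sqrt d) :
    (1 - ε) * ((d : ℝ) * Real.sqrt d) ≤ (Finset.univ.filter fun i => wt x z i ≠ 0).card := by
  have hd0 : (0 : ℝ) < d := by exact_mod_cast hd
  set n := (Finset.univ.filter fun i => wt x z i ≠ 0).card with hn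
  set r := Real.sqrt d with hr
  have hr2 : r ^ 2 = d := Real.sq_sqrt hd0.le
  have hr0 : 0 < r := Real.sqrt_pos.mpr hd0
  rcases le_or_gt 1 ε with hε1 | hε1
  · have : (0 : ℝ) ≤ (n : ℝ) := Nat.cast_nonneg _
    have h2 : 0 ≤ (ε - 1) * (d * r) := mul_nonneg (by linarith) (by positivity)
    nlinarith
  by_contra hcon
  push Not at hcon
  by_cases hA : ∃ i, ε / 2 ≤ wt x z i
  · obtain ⟨i, hi⟩ := hA
    have h2 := caseA hd hx hz i (hf i) (by linarith)
    have hW1 := wt_lt_one hd (hf i)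
    rw [← hn] at h2
    set W := wt x z i with hW
    have h3 : (ε / 2) ^ 4 ≤ W ^ 4 := pow_le_pow_left₀ (by positivity) hi 4
    have hW0 : 0 < W := by linarith
    have h4 : (1 + W) ^ 2 ≤ 4 := by nlinarith
    have hn1 : 0 ≤ (n : ℝ) - 1 := by
      have h5 : 0 < 2 * (1 + W) ^ 2 * ((n : ℝ) - 1) := lt_of_lt_of_le (by positivity) h2
      by_contra hneg
      push Not at hneg
      have : 2 * (1 + W) ^ 2 * ((n : ℝ) - 1) ≤ 0 :=
        mul_nonpos_of_nonneg_of_nonpos (by positivity) hneg.le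
      linarith
    have h6 : (ε / 2) ^ 4 * (d * (d + 1)) ≤ 8 * (n - 1) := by
      calc (ε / 2) ^ 4 * (d * (d + 1)) ≤ W ^ 4 * (d * (d + 1)) :=
            mul_le_mul_of_nonneg_right h3 (by positivity)
        _ ≤ 2 * (1 + W) ^ 2 * (n - 1) := h2
        _ ≤ 2 * 4 * (n - 1) := by
            apply mul_le_mul_of_nonneg_right _ hn1
            linarith
        _ = 8 * (n - 1) := by ring
    have h7 : 8 * (d * r) ≤ (ε / 2) ^ 4 * (d * d) := by
      have : (ε / 2) ^ 4 * (d * d) = (ε ^ 4 * r) / 16 * (d * r) := by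
        rw [← hr2]; ring
      rw [this]
      have h8 : (8 : ℝ) ≤ (ε ^ 4 * r) / 16 := by linarith
      exact mul_le_mul_of_nonneg_right h8 (by positivity)
    have h9 : (ε / 2) ^ 4 * (d * d) ≤ (ε / 2) ^ 4 * (d * (d + 1)) :=
      mul_le_mul_of_nonneg_left (by nlinarith) (by positivity)
    have h10 : 0 < ε * (d * r) := by positivity
    nlinarith
  · push Not at hA
    obtain ⟨s, τ, hs0, hτ0, hsτ, hτn, hmain⟩ := caseB hd hx hz (ω := ε / 2) (by linarith)
      (fun i => (hA i).le)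
    rw [← hn] at hτn
    set c := 1 - ε with hc
    have hc0 : 0 < c := by rw [hc]; linarith
    have hc1 : c < 1 := by rw [hc]; linarith
    have hτc : τ < c * r := by
      have : d * τ < d * (c * r) := by linarith
      exact lt_of_mul_lt_mul_left this hd0.le
    set t := 1 / r with ht
    have ht0 : 0 < t := by positivity
    have htr : t * r = 1 := by rw [ht]; field_simp
    have ht2 : t ^ 2 * d = 1 := by rw [← hr2, ← mul_pow, htr, one_pow]
    -- `t` is small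
    have hsmall : 28 * t < ε := by
      have h2 : ε ^ 4 ≤ ε := by
        have : ε ^ 3 ≤ 1 := pow_le_one₀ hε.le hε1.le
        nlinarith
      have h3 : 128 ≤ ε * r := hεd.trans (mul_le_mul_of_nonneg_right h2 hr0.le)
      have h4 : 128 * t ≤ ε * r * t := mul_le_mul_of_nonneg_right h3 ht0.le
      have h5 : ε * r * t = ε := by rw [mul_assoc, mul_comm r t, htr, mul_one]
      linarith
    have ht1 : t < 1 := by linarith
    have hst : s ≤ t := by
      refine hsτ.trans ?_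
      rw [div_le_iff₀ hd0]
      have : t * d = r := by rw [← hr2]; nlinarith
      rw [this]
      nlinarith
    have hK : τ ^ 2 * ((1 + 1 / Real.sqrt (d + 1)) ^ 2 / (d + 1)) ≤ c ^ 2 * (1 + t) ^ 2 := by
      have h2 : r ≤ Real.sqrt (d + 1) := Real.sqrt_le_sqrt (by linarith)
      have h3 : 1 / Real.sqrt (d + 1) ≤ t := one_div_le_one_div_of_le hr0 h2
      have h4 : (1 + 1 / Real.sqrt ((d : ℝ) + 1)) ^ 2 ≤ (1 + t) ^ 2 := by
        refine pow_le_pow_left₀ (by positivity) (by linarith) 2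
      have h5 : τ ^ 2 ≤ c ^ 2 * (d + 1) := by
        have h55 : τ ^ 2 ≤ (c * r) ^ 2 := pow_le_pow_left₀ hτ0 hτc.le 2
        rw [mul_pow, hr2] at h55
        nlinarith [sq_nonneg c]
      have h6 : (1 + 1 / Real.sqrt ((d : ℝ) + 1)) ^ 2 / (d + 1) ≤ (1 + t) ^ 2 / (d + 1) :=
        div_le_div_of_nonneg_right h4 (by positivity)
      calc τ ^ 2 * ((1 + 1 / Real.sqrt (d + 1)) ^ 2 / (d + 1))
          ≤ (c ^ 2 * (d + 1)) * ((1 + t) ^ 2 / (d + 1)) :=
            mul_le_mul h5 h6 (by positivity) (by positivity)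
        _ = c ^ 2 * (1 + t) ^ 2 := by field_simp
    have hdd : 1 - t ^ 2 ≤ (d : ℝ) / (d + 1) := by
      rw [le_div_iff₀ (by positivity)]
      nlinarith [sq_nonneg t]
    have hdd0 : 0 ≤ 1 - t ^ 2 := by nlinarith
    have hdd2 : (1 - t ^ 2) ^ 2 ≤ ((d : ℝ) / (d + 1)) ^ 2 := pow_le_pow_left₀ hdd0 hdd 2
    have hL : (1 - ε / 2 : ℝ) ^ 2 * (1 - t ^ 2) ^ 2 * (1 - t) ≤
        (1 - ε / 2) ^ 2 * (d / (d + 1)) ^ 2 * (1 - s) := by
      refine mul_le_mul ?_ (by linarith) (by linarith) (by positivity)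
      exact mul_le_mul_of_nonneg_left hdd2 (by positivity)
    have h11 : (1 - t ^ 2) ^ 2 * (1 - t) ≥ 1 - 3 * t := by
      have ha : t ^ 2 ≤ t := by
        have ha : t * t ≤ 1 * t := mul_le_mul_of_nonneg_right ht1.le ht0.le
        rw [sq]; linarith
      have hb : (1 - t ^ 2) ^ 2 = 1 - 2 * t ^ 2 + (t ^ 2) ^ 2 := by ring
      have hb' : 1 - 2 * t ≤ (1 - t ^ 2) ^ 2 := by
        rw [hb]; have := sq_nonneg (t ^ 2); linarith
      have hc' : (1 - 2 * t) * (1 - t) ≤ (1 - t ^ 2) ^ 2 * (1 - t) :=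
        mul_le_mul_of_nonneg_right hb' (by linarith)
      have hd' : (1 - 2 * t) * (1 - t) = 1 - 3 * t + 2 * t ^ 2 := by ring
      have := sq_nonneg t
      linarith
    have h12 : (1 - ε / 2) ^ 2 * (1 - 3 * t) ≤ t + c ^ 2 * (1 + t) ^ 2 := by
      have h13 : (1 - ε / 2) ^ 2 * (1 - 3 * t) ≤ (1 - ε / 2 : ℝ) ^ 2 * (1 - t ^ 2) ^ 2 * (1 - t) := by
        rw [mul_assoc]
        exact mul_le_mul_of_nonneg_left h11 (by positivity)
      linarith
    have h14 : (1 - ε / 2) ^ 2 ≤ 1 := pow_le_one₀ (by linarith) (by linarith)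
    have h15 : c ^ 2 * (1 + t) ^ 2 ≤ c ^ 2 + 3 * t := by
      have h16 : c ^ 2 ≤ 1 := pow_le_one₀ hc0.le hc1.le
      have h17 : (1 + t) ^ 2 ≤ 1 + 3 * t := by
        have ha : t * t ≤ 1 * t := mul_le_mul_of_nonneg_right ht1.le ht0.le
        have hb : (1 + t) ^ 2 = 1 + 2 * t + t * t := by ring
        linarith
      have h20 : c ^ 2 * (1 + t) ^ 2 ≤ c ^ 2 * (1 + 3 * t) :=
        mul_le_mul_of_nonneg_left h17 (by positivity)
      have h21 : c ^ 2 * (3 * t) ≤ 1 * (3 * t) := mul_le_mul_of_nonneg_right h16 (by positivity)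
      have h22 : c ^ 2 * (1 + 3 * t) = c ^ 2 + c ^ 2 * (3 * t) := by ring
      linarith
    have h18 : (1 - ε / 2) ^ 2 * (3 * t) ≤ 1 * (3 * t) :=
      mul_le_mul_of_nonneg_right h14 (by positivity)
    have h19 : (1 - ε / 2) ^ 2 - c ^ 2 = ε * (1 - 3 * ε / 4) := by rw [hc]; ring
    have h23 : ε * (1 / 4) ≤ ε * (1 - 3 * ε / 4) :=
      mul_le_mul_of_nonneg_left (by linarith) hε.le
    have h24 : (1 - ε / 2) ^ 2 * (1 - 3 * t) = (1 - ε / 2) ^ 2 - (1 - ε / 2) ^ 2 * (3 * t) := by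
      ring
    linarith

end Pool.Agent.H207.SR
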