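import Mathlib

set_option autoImplicit false

namespace Pool.Agent.H207.SR

open scoped InnerProductSpace ComplexConjugate

/-- a primitive cube root of unity. -/
noncomputable def om : ℂ := ⟨-1 / 2, Real.sqrt 3 / 2⟩

/-- its powers. -/
noncomputable def omp (k : Fin 3) : ℂ := if k = 0 then 1 else if k = 1 then om else conj om

/-- vector with first coordinate (after `g`) `1/√2` and second coordinate `u/√2`. -/
noncomputable def V (g : Fin 3) (u : ℂ) : EuclideanSpace ℂ (Fin 3) :=
  WithLp.toLp 2 fun a => if a = g then 0 else if a = g + 1 then (1 / Real.sqrt 2 : ℝ) else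
    u * (1 / Real.sqrt 2 : ℝ)

theorem V_apply (g : Fin 3) (u : ℂ) (a : Fin 3) : V g u a = if a = g then 0 else
    if a = g + 1 then ((1 / Real.sqrt 2 : ℝ) : ℂ) else u * ((1 / Real.sqrt 2 : ℝ) : ℂ) := rfl

theorem half : ((1 / Real.sqrt 2 : ℝ) : ℂ) * ((1 / Real.sqrt 2 : ℝ) : ℂ) = 1 / 2 := by
  rw [← Complex.ofReal_mul]
  have : (1 / Real.sqrt 2) * (1 / Real.sqrt 2) = (1 / 2 : ℝ) := by
    rw [div_mul_div_comm, Real.mul_self_sqrt (by norm_num)]; norm_num
  rw [this]; push_cast; rfl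

theorem inner_V_same (g : Fin 3) (u u' : ℂ) : ⟪V g u, V g u'⟫_ℂ = (1 + conj u * u') / 2 := by
  have h := half
  rw [EuclideanSpace.inner_eq_star_dotProduct, dotProduct]
  simp only [Fin.sum_univ_three, Pi.star_apply]
  fin_cases g <;> simp [V_apply, Complex.conj_ofReal] <;> simp at h <;> 
    linear_combination (1 + conj u * u') * h

theorem norm_inner_V_diff {g g' : Fin 3} (h : g ≠ g') {u u' : ℂ} (hu : ‖u‖ = 1) (hu' : ‖u'‖ = 1) :
    ‖⟪V g u, V g' u'⟫_ℂ‖ = 1 / 2 := by
  have h2 : ‖((1 / Real.sqrt 2 : ℝ) : ℂ)‖ * ‖((1 / Real.sqrt 2 : ℝ) : ℂ)‖ = 1 / 2 := by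
    rw [← norm_mul, half]; norm_num
  rw [EuclideanSpace.inner_eq_star_dotProduct, dotProduct]
  simp only [Fin.sum_univ_three, Pi.star_apply]
  fin_cases g <;> fin_cases g' <;> simp at h <;> 
    simp [V_apply, hu, hu'] <;> simp at h2 <;> linarith

theorem om_conj_mul : conj om * om = 1 := by
  apply Complex.ext
  · simp [om]
    have : Real.sqrt 3 * Real.sqrt 3 = 3 := Real.mul_self_sqrt (by norm_num)
    nlinarith
  · simp [om]; ring

theorem norm_om : ‖om‖ = 1 := by
  have h : ‖om‖ ^ 2 = 1 := by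
    have := om_conj_mul
    rw [Complex.conj_mul'] at this
    exact_mod_cast this
  have h0 := norm_nonneg om
  nlinarith

theorem norm_omp (k : Fin 3) : ‖omp k‖ = 1 := by
  fin_cases k <;> simp [omp, norm_om]

theorem om_sum : 1 + om = - conj om := by
  apply Complex.ext <;> simp [om]; norm_num

theorem om_sum' : 1 + conj om = - om := by
  apply Complex.ext <;> simp [om]; norm_num

theorem om_sq : om * om = conj om := by
  have h : Real.sqrt 3 * Real.sqrt 3 = 3 := Real.mul_self_sqrt (by norm_num)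
  apply Complex.ext
  · simp [om]; nlinarith
  · simp [om]; ring

theorem conj_om_sq : conj om * conj om = om := by
  rw [← map_mul, om_sq, Complex.conj_conj]

theorem norm_same {k k' : Fin 3} (h : k ≠ k') : ‖1 + conj (omp k) * omp k'‖ = 1 := by
  fin_cases k <;> fin_cases k' <;> simp at h <;>
    simp [omp, om_sum, om_sum', om_sq, conj_om_sq, norm_om]

/-- nine equiangular vectors of `ℂ³`, depending on a sign in the third group. -/
noncomputable def fam (e : ℂ) (i : Fin (3 ^ 2)) : EuclideanSpace ℂ (Fin 3) :=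
  V (Fin.ofNat 3 (i / 3)) ((if (i : ℕ) < 6 then -1 else e) * omp (Fin.ofNat 3 i))

theorem fam_norm {e : ℂ} (he : conj e * e = 1) (i : Fin (3 ^ 2)) : ‖fam e i‖ = 1 := by
  have hk : conj (omp (Fin.ofNat 3 i)) * omp (Fin.ofNat 3 i) = 1 := by
    rw [Complex.conj_mul', norm_omp]; norm_num
  have h : ⟪fam e i, fam e i⟫_ℂ = 1 := by
    rw [fam, inner_V_same]
    split_ifs
    · rw [map_mul, map_neg, map_one]
      linear_combination (1 / 2 : ℂ) * hk
    · rw [map_mul]
      linear_combination (1 / 2 : ℂ) * (conj e * e) * hk + (1 / 2 : ℂ) * he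
  rw [inner_self_eq_norm_sq_to_K] at h
  have h2' : ((‖fam e i‖ ^ 2 : ℝ) : ℂ) = ((1 : ℝ) : ℂ) := by rw [Complex.ofReal_one, ← h]; push_cast; rfl
  have h2 : ‖fam e i‖ ^ 2 = 1 := Complex.ofReal_injective h2'
  have h0 := norm_nonneg (fam e i)
  nlinarith

theorem fam_angle {e : ℂ} (he : conj e * e = 1) {i j : Fin (3 ^ 2)} (hij : i ≠ j) :
    ‖⟪fam e i, fam e j⟫_ℂ‖ = 1 / 2 := by
  have hen : ‖e‖ = 1 := by
    rw [Complex.conj_mul'] at he
    have h2 : ‖e‖ ^ 2 = 1 := by exact_mod_cast he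
    have h0 := norm_nonneg e
    nlinarith
  by_cases hg : (Fin.ofNat 3 (i / 3) : Fin 3) = Fin.ofNat 3 (j / 3)
  · have hk : (Fin.ofNat 3 i : Fin 3) ≠ Fin.ofNat 3 j := by
      revert hij hg
      revert i j
      decide
    have hs : ((i : ℕ) < 6 ↔ (j : ℕ) < 6) := by
      clear hk hij
      revert hg
      revert i j
      decide
    have h1 := norm_same hk
    rw [fam, fam, ← hg, inner_V_same]
    by_cases h6 : (i : ℕ) < 6
    · rw [if_pos h6, if_pos (hs.mp h6)]
      rw [show conj (-1 * omp (Fin.ofNat 3 i)) * (-1 * omp (Fin.ofNat 3 j))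
        = conj (omp (Fin.ofNat 3 i)) * omp (Fin.ofNat 3 j) by
          rw [map_mul, map_neg, map_one]; ring]
      rw [norm_div, h1]; norm_num
    · rw [if_neg h6, if_neg (fun h => h6 (hs.mpr h))]
      rw [show conj (e * omp (Fin.ofNat 3 i)) * (e * omp (Fin.ofNat 3 j))
        = (conj e * e) * (conj (omp (Fin.ofNat 3 i)) * omp (Fin.ofNat 3 j)) by
          rw [map_mul]; ring, he, one_mul]
      rw [norm_div, h1]; norm_num
  · rw [fam, fam]
    apply norm_inner_V_diff hg
    · rw [norm_mul, norm_omp, mul_one]; split_ifs <;> simp [hen]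
    · rw [norm_mul, norm_omp, mul_one]; split_ifs <;> simp [hen]

end Pool.Agent.H207.SR
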